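import Pool.Agent.Helper61.FN.GoalsC
import Pool.Agent.Helper61.FN.Tools

/-!
# Project FN, packet FN-C1C: the relations of the case (C1) are contradictory
-/

set_option autoImplicit false

namespace Pool.Agent.Helper45.FN.C1C

open Pool.Agent.Helper61.FN

/-- The ordered part, `q > p`. -/
theorem ordered {F : Type} [Field F] [LinearOrder F] [IsStrictOrderedRing F]
    {p q mu ep : F} (P : ParC p q mu ep) (hpq : p < q) (δ h : F)
    (e1 : p * (1 - δ) ^ 2 * (p - h) = (p + ep) ^ 2)
    (e2 : q * (1 + δ) ^ 2 * (q - h) = (q + ep) ^ 2)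
    (e3 : h = (q - p) * δ - (p + q + 2 * ep + mu * (p + q) ^ 2 / (2 * p * q)))
    (e4 : h * δ = mu * (q - p) * (p + q) / (2 * p * q)) : False := by
  have hp : 0 < p := lt_of_lt_of_le one_pos P.p1
  have hq : 0 < q := lt_of_lt_of_le one_pos P.q1
  have hmu := P.mu0
  have hph := P.ph0
  have hch := P.ch0
  have ht : 0 < q - p := sub_pos.2 hpq
  have hL : 0 < mu * (p + q) ^ 2 / (2 * p * q) := by positivity
  have hhd : 0 < h * δ := by
    rw [e4]
    positivity
  rcases pos_and_pos_or_neg_and_neg_of_mul_pos hhd with ⟨hh, hδ⟩ | ⟨hh, hδ⟩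
  · have hph2 : 0 < (p + ep) ^ 2 := by positivity
    have h1 : 0 < p - h := by
      by_contra hc
      have : p * (1 - δ) ^ 2 * (p - h) ≤ 0 :=
        mul_nonpos_of_nonneg_of_nonpos (by positivity) (not_lt.1 hc)
      rw [e1] at this
      exact absurd hph2 (not_lt.2 this)
    have h2 : q - p < q - h := by linarith
    have h3 : 2 * (q + ep) < (q - p) * (1 + δ) := by nlinarith
    have h4 : (2 * (q + ep)) ^ 2 < ((q - p) * (1 + δ)) ^ 2 :=
      pow_lt_pow_left₀ h3 (by positivity) two_ne_zero
    have h5 : (q - p) ^ 2 * (q + ep) ^ 2 = ((q - p) * (1 + δ)) ^ 2 * (q * (q - h)) := by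
      rw [← e2]
      ring
    have h6 : (2 * (q + ep)) ^ 2 * (q * (q - p)) < (q - p) ^ 2 * (q + ep) ^ 2 := by
      rw [h5]
      apply mul_lt_mul'' h4 (mul_lt_mul_of_pos_left h2 hq) (by positivity) (by positivity)
    have h7 : 0 < (q - p) * (q + ep) ^ 2 := by positivity
    have h8 : (q - p) * (q + ep) ^ 2 * (4 * q) < (q - p) * (q + ep) ^ 2 * (q - p) := by
      nlinarith
    have h9 := lt_of_mul_lt_mul_left h8 h7.le
    linarith
  · have h1 : p + q + 2 * ep < -h := by nlinarith [mul_neg_of_pos_of_neg ht hδ]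
    have h2 : 1 < (1 - δ) ^ 2 := by nlinarith
    have h3 : 0 < p - h := by linarith
    have h4 : p * (p - h) < (p + ep) ^ 2 := by
      rw [← e1]
      have := mul_lt_mul_of_pos_right h2 (mul_pos hp h3)
      nlinarith
    have h5 : p * (p + (p + q + 2 * ep)) < p * (p - h) :=
      mul_lt_mul_of_pos_left (by linarith) hp
    have h6 := P.ep2
    have h7 := P.p1
    have h8 := P.q1
    nlinarith

/-- The case `p = q`. -/
theorem equal {F : Type} [Field F] [LinearOrder F] [IsStrictOrderedRing F]
    {p mu ep : F} (P : ParC p p mu ep)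
    (e : 2 * (2 * p + 2 * p + mu + 2 * ep) + mu * (p / p + p / p) =
      2 * (p + (p + ep) * ((p + ep) / p))) : False := by
  have hp : 0 < p := lt_of_lt_of_le one_pos P.p1
  have hmu := P.mu0
  have h6 := P.ep2
  have h7 := P.p1
  rw [div_self hp.ne'] at e
  field_simp at e
  nlinarith [mul_pos hp hmu]

/-- The step down to the ordered field, `q > p`. -/
theorem less {F k : Type} [Field F] [LinearOrder F] [IsStrictOrderedRing F] [Field k]
    [Algebra F k] (sq : SqF F) {p q mu ep : F} (P : ParC p q mu ep) (hpq : p < q) {th t1 t2 : k}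
    (R : RelC1 p q mu ep th t1 t2) : False := by
  obtain ⟨hth, ht1, ht2, r1, r2, r3, r4, r5⟩ := R
  have hp : 0 < p := lt_of_lt_of_le one_pos P.p1
  have hq : 0 < q := lt_of_lt_of_le one_pos P.q1
  have hmu := P.mu0
  have hph := P.ph0
  have hch := P.ch0
  have ht : 0 < q - p := sub_pos.2 hpq
  have inj : Function.Injective (algebraMap F k) := (algebraMap F k).injective
  have hpk : algebraMap F k p ≠ 0 := am_ne hp.ne'
  have hqk : algebraMap F k q ≠ 0 := am_ne hq.ne'
  have hphk : algebraMap F k (p + ep) ≠ 0 := am_ne hph.ne'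
  have hchk : algebraMap F k (q + ep) ≠ 0 := am_ne hch.ne'
  have htk : algebraMap F k (q - p) ≠ 0 := am_ne ht.ne'
  have h2k : (2 : k) ≠ 0 := by
    have : algebraMap F k 2 ≠ 0 := am_ne two_ne_zero
    rwa [map_ofNat] at this
  -- the two new quantities
  obtain ⟨δ, hδ⟩ : ∃ δ : k, δ * (th * algebraMap F k p * algebraMap F k q) =
      algebraMap F k (q - p) * algebraMap F k (p + q) :=
    ⟨algebraMap F k (q - p) * algebraMap F k (p + q) /
      (th * algebraMap F k p * algebraMap F k q), div_mul_cancel₀ _ (mul_ne_zero (mul_ne_zero hth hpk) hqk)⟩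
  obtain ⟨h, hh⟩ : ∃ h : k, 2 * h = algebraMap F k mu * th :=
    ⟨algebraMap F k mu * th / 2, mul_div_cancel₀ _ h2k⟩
  have c1 : algebraMap F k (p + ep) * t1 = algebraMap F k p * (1 - δ) := by
    have : th * algebraMap F k q ≠ 0 := mul_ne_zero hth hqk
    apply mul_left_cancel₀ this
    have e : algebraMap F k (q ^ 2 - p ^ 2) =
        algebraMap F k (q - p) * algebraMap F k (p + q) := by
      rw [← map_mul]
      congr 1
      ring
    rw [e, ← hδ] at r1
    linear_combination -r1
  have c2 : algebraMap F k (q + ep) * t2 = algebraMap F k q * (1 + δ) := by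
    have : th * algebraMap F k p ≠ 0 := mul_ne_zero hth hpk
    apply mul_left_cancel₀ this
    have e : algebraMap F k (p ^ 2 - q ^ 2) =
        -(algebraMap F k (q - p) * algebraMap F k (p + q)) := by
      rw [← map_mul, ← map_neg]
      congr 1
      ring
    rw [e, ← hδ] at r2
    linear_combination -r2
  have e1 : t1 ^ 2 * (algebraMap F k p - h) = algebraMap F k p := by
    apply mul_left_cancel₀ h2k
    rw [map_mul, map_ofNat] at r3
    linear_combination r3 - t1 ^ 2 * hh
  have e2 : t2 ^ 2 * (algebraMap F k q - h) = algebraMap F k q := by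
    apply mul_left_cancel₀ h2k
    rw [map_mul, map_ofNat] at r4
    linear_combination r4 - t2 ^ 2 * hh
  have d1 : algebraMap F k p * (1 - δ) ^ 2 * (algebraMap F k p - h) =
      algebraMap F k (p + ep) ^ 2 := by
    apply mul_left_cancel₀ hpk
    linear_combination algebraMap F k (p + ep) ^ 2 * e1 - (algebraMap F k p - h) *
      (algebraMap F k (p + ep) * t1 + algebraMap F k p * (1 - δ)) * c1
  have d2 : algebraMap F k q * (1 + δ) ^ 2 * (algebraMap F k q - h) =
      algebraMap F k (q + ep) ^ 2 := by
    apply mul_left_cancel₀ hqk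
    linear_combination algebraMap F k (q + ep) ^ 2 * e2 - (algebraMap F k q - h) *
      (algebraMap F k (q + ep) * t2 + algebraMap F k q * (1 + δ)) * c2
  have f1 : algebraMap F k (p + ep) * t1⁻¹ = (1 - δ) * (algebraMap F k p - h) := by
    apply mul_left_cancel₀ (mul_ne_zero hpk ht1)
    rw [show algebraMap F k p * t1 * (algebraMap F k (p + ep) * t1⁻¹) =
      algebraMap F k p * algebraMap F k (p + ep) * (t1 * t1⁻¹) by ring, mul_inv_cancel₀ ht1]
    linear_combination t1 * (algebraMap F k p - h) * c1 - algebraMap F k (p + ep) * e1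
  have f2 : algebraMap F k (q + ep) * t2⁻¹ = (1 + δ) * (algebraMap F k q - h) := by
    apply mul_left_cancel₀ (mul_ne_zero hqk ht2)
    rw [show algebraMap F k q * t2 * (algebraMap F k (q + ep) * t2⁻¹) =
      algebraMap F k q * algebraMap F k (q + ep) * (t2 * t2⁻¹) by ring, mul_inv_cancel₀ ht2]
    linear_combination t2 * (algebraMap F k q - h) * c2 - algebraMap F k (q + ep) * e2
  have d4 : h * δ = algebraMap F k (mu * (q - p) * (p + q) / (2 * p * q)) := by
    have hpq2 : algebraMap F k (2 * p * q) ≠ 0 := am_ne (by positivity)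
    rw [map_div₀, eq_div_iff hpq2]
    simp only [map_mul, map_ofNat]
    linear_combination algebraMap F k mu * hδ + δ * algebraMap F k p * algebraMap F k q * hh
  have d3 : h = algebraMap F k (q - p) * δ -
      algebraMap F k (p + q + 2 * ep + mu * (p + q) ^ 2 / (2 * p * q)) := by
    have hL : p + q + 2 * ep + mu * (p + q) ^ 2 / (2 * p * q) =
        (2 * (2 * p + 2 * q + mu + 2 * ep) + mu * (p / q + q / p)) / 2 - (p + q) := by
      field_simp
      ring
    have hL' := congrArg (algebraMap F k) hL
    rw [map_sub _ (_ / 2) (p + q), map_div₀, map_ofNat, r5, mul_add, mul_add, f1, f2, c1, c2,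
      map_add _ p q] at hL'
    rw [hL', map_sub (algebraMap F k) q p]
    field_simp
    ring
  -- the square
  set L : F := p + q + 2 * ep + mu * (p + q) ^ 2 / (2 * p * q) with hLd
  set C : F := mu * (q - p) * (p + q) / (2 * p * q) with hCd
  have hC : 0 < C := by
    rw [hCd]
    positivity
  obtain ⟨b, hb⟩ := sq (L ^ 2 + 4 * (q - p) * C) (by positivity)
  have key : (2 * algebraMap F k (q - p) * δ - algebraMap F k L - algebraMap F k b) *
      (2 * algebraMap F k (q - p) * δ - algebraMap F k L + algebraMap F k b) = 0 := by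
    have hb' := congrArg (algebraMap F k) hb
    simp only [map_mul, map_add, map_pow, map_ofNat] at hb'
    rw [d3] at d4
    linear_combination 4 * algebraMap F k (q - p) * d4 - hb'
  have : ∃ δ' : F, δ = algebraMap F k δ' := by
    rcases mul_eq_zero.1 key with h1 | h1
    · refine ⟨(L + b) / (2 * (q - p)), ?_⟩
      rw [map_div₀, eq_div_iff (am_ne (by positivity)), map_mul, map_ofNat, map_add]
      linear_combination h1
    · refine ⟨(L - b) / (2 * (q - p)), ?_⟩
      rw [map_div₀, eq_div_iff (am_ne (by positivity)), map_mul, map_ofNat,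
        map_sub (algebraMap F k) L b]
      linear_combination h1
  obtain ⟨δ', rfl⟩ := this
  have hh' : h = algebraMap F k ((q - p) * δ' - L) := by
    rw [d3, map_sub _ _ L, map_mul]
  subst hh'
  refine ordered P hpq δ' ((q - p) * δ' - L) (inj ?_) (inj ?_) rfl (inj ?_)
  · simpa only [map_mul, map_sub, map_pow, map_one, map_add] using d1
  · simpa only [map_mul, map_sub, map_pow, map_one, map_add] using d2
  · rw [map_mul]
    exact d4

/-- **FN-C1C**. -/
theorem goalC1C : G_C1C := by
  intro F k _ _ _ _ _ sq p q mu ep P th t1 t2 R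
  rcases lt_trichotomy p q with h | h | h
  · exact less sq P h R
  · subst h
    obtain ⟨hth, ht1, ht2, r1, r2, r3, r4, r5⟩ := R
    have hp : 0 < p := lt_of_lt_of_le one_pos P.p1
    have hpk : algebraMap F k p ≠ 0 := am_ne hp.ne'
    have c1 : algebraMap F k (p + ep) * t1 = algebraMap F k p := by
      rw [sub_self, map_zero, mul_eq_zero] at r1
      rcases r1 with h | h
      · exact absurd h (mul_ne_zero hth hpk)
      · linear_combination -h
    have c2 : algebraMap F k (p + ep) * t2 = algebraMap F k p := by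
      rw [sub_self, map_zero, mul_eq_zero] at r2
      rcases r2 with h | h
      · exact absurd h (mul_ne_zero hth hpk)
      · linear_combination -h
    have f1 : algebraMap F k (p + ep) * t1⁻¹ = algebraMap F k ((p + ep) * ((p + ep) / p)) := by
      rw [map_mul, map_div₀, ← c1]
      field_simp
    have f2 : algebraMap F k (p + ep) * t2⁻¹ = algebraMap F k ((p + ep) * ((p + ep) / p)) := by
      rw [map_mul, map_div₀, ← c2]
      field_simp
    refine equal P ((algebraMap F k).injective ?_)
    rw [r5, mul_add, mul_add, f1, f2, c1, c2]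
    simp only [map_mul, map_add, map_ofNat]
    ring
  · refine less (p := q) (q := p) (th := th) (t1 := t2) (t2 := t1) sq
      ⟨P.q1, P.p1, P.mu0, P.ep2, P.ch0, P.ph0⟩ h ?_
    obtain ⟨hth, ht1, ht2, r1, r2, r3, r4, r5⟩ := R
    refine ⟨hth, ht2, ht1, r2, r1, r4, r3, ?_⟩
    rw [show 2 * (2 * q + 2 * p + mu + 2 * ep) + mu * (q / p + p / q) =
      2 * (2 * p + 2 * q + mu + 2 * ep) + mu * (p / q + q / p) by ring, r5]
    ring

end Pool.Agent.Helper45.FN.C1C
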