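import Pool.Agent.Helper61.FN.GoalsC
import Pool.Agent.Helper61.FN.Tools

/-!
# Project FN, packet FN-CCL: conclusion for the T-roots of type `BC₂`
-/

set_option autoImplicit false

namespace Pool.Agent.Helper45.FN.CCL

open Pool.Agent.Helper61.FN

section

variable {F k : Type} [Field F] [LinearOrder F] [IsStrictOrderedRing F] [Field k]
  [Algebra F k] {p q mu ep lam : F} {v : Fin 6 → ℤ} {M : ℤ} {ξ : Fin 6 → k}

/-- `v = 0` is impossible. -/
theorem zero (h : NC p q mu ep lam v M ξ) (hv : ∀ e, v e = 0) : False := by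
  have hs := h.sm
  simp only [hv, Int.cast_zero, mul_zero, add_zero] at hs
  have hp : 0 < p := lt_of_lt_of_le one_pos h.par.p1
  have hq : 0 < q := lt_of_lt_of_le one_pos h.par.q1
  have hmu := h.par.mu0
  have hph := h.par.ph0
  have hch := h.par.ch0
  have hM : (0 : F) < M := by exact_mod_cast h.nrm.M_pos
  have : 0 < (M : F) * (4 * p * q + p * (p + ep) + q * (q + ep) + 2 * p * mu + 2 * q * mu) := by
    positivity
  exact this.ne hs

/-- (a). -/
theorem caseA (h6 : G_C6) (h4a : G_C4A) (h4b : G_C4B) (h : NC p q mu ep lam v M ξ)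
    (hv : v 4 = 0) : False := by
  obtain ⟨t0, ⟨a1, a2, a3⟩, ⟨b1, b2, b3⟩, c1, c2, ⟨d1, d2, d3⟩, e1, e2, e3⟩ := h.tri
  have n0 := t0 0
  have n2 := t0 2
  have n3 := t0 3
  have v2 : v 2 = 0 := by omega
  have v1 : v 1 = v 0 := by omega
  have v5 : v 5 = v 0 := by omega
  rcases n0.eq_or_lt with h0 | h0
  · refine zero h fun e ↦ ?_
    fin_cases e <;> simp <;> omega
  · rcases n3.eq_or_lt with h3 | h3
    · exact h6 F k p q mu ep lam v M ξ h v2 h3.symm hv v1 v5 h0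
    · rcases (show v 3 ≤ 2 * v 0 by omega).lt_or_eq with h3' | h3'
      · exact h4a F k p q mu ep lam v M ξ h v2 hv v1 v5 h0 h3 h3'
      · exact h4b F k p q mu ep lam v M ξ h v2 hv v1 v5 h0 h3'

/-- (b). -/
theorem caseB (sq : SqF F) (h5 : G_C5) (h1a : G_C1A) (h1b : G_C1B) (h1c : G_C1C)
    (h : NC p q mu ep lam v M ξ) (hv : v 0 = 0) (h4 : 0 < v 4) : False := by
  obtain ⟨t0, ⟨a1, a2, a3⟩, ⟨b1, b2, b3⟩, c1, c2, ⟨d1, d2, d3⟩, e1, e2, e3⟩ := h.tri
  have n1 := t0 1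
  have v2 : v 2 = v 1 := by omega
  have v3 : v 3 = v 1 := by omega
  have v5 : v 5 = v 4 := by omega
  rcases n1.eq_or_lt with h1 | h1
  · exact h5 F k p q mu ep lam v M ξ h hv h1.symm (by omega) (by omega) v5 h4
  · rcases (show v 1 ≤ 2 * v 4 by omega).lt_or_eq with h1' | h1'
    · exact h1a F k p q mu ep lam v M ξ h hv v2 v3 v5 h1 h4 h1'
    · obtain ⟨th, t1, t2, R⟩ := h1b F k p q mu ep lam v M ξ h hv h1' (by omega) (by omega) v5 h4
      exact h1c F k sq p q mu ep h.par th t1 t2 R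

/-- (c). -/
theorem caseC (h3 : G_C3) (h2 : G_C2) (h : NC p q mu ep lam v M ξ) (hv : v 2 = 0)
    (h0 : 0 < v 0) (h4 : 0 < v 4) (h5 : 0 < v 5) : False := by
  obtain ⟨t0, ⟨a1, a2, a3⟩, ⟨b1, b2, b3⟩, c1, c2, ⟨d1, d2, d3⟩, e1, e2, e3⟩ := h.tri
  have v1 : v 1 = v 0 := by omega
  rcases (t0 3).eq_or_lt with h3' | h3'
  · exact h3 F k p q mu ep lam v M ξ h hv h3'.symm v1 h0 h4 h5
  · exact h2 F k p q mu ep lam v M ξ h hv v1 h0 h4 h5 h3'

end

/-- **FN-CCL**. -/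
theorem goalCCL (hsg : G_CSG) (hta : G_CTA) (h5 : G_C5) (h6 : G_C6) (h3 : G_C3) (h2 : G_C2)
    (h1a : G_C1A) (h1b : G_C1B) (h1c : G_C1C) (h4a : G_C4A) (h4b : G_C4B) (h0 : G_C0) :
    G_CCL := by
  intro F k _ _ _ _ _ sq p q mu ep lam v M ξ h
  have t0 := h.tri.1
  rcases (t0 4).eq_or_lt with n4 | n4
  · exact caseA h6 h4a h4b h n4.symm
  rcases (t0 5).eq_or_lt with n5 | n5
  · exact caseA h6 h4a h4b (hta F k p q mu ep lam v M ξ h) n5.symm
  rcases (t0 0).eq_or_lt with n0 | n0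
  · exact caseB sq h5 h1a h1b h1c h n0.symm n4
  rcases (t0 1).eq_or_lt with n1 | n1
  · exact caseB sq h5 h1a h1b h1c (hsg F k p q mu ep lam v M ξ h) n1.symm n4
  rcases (t0 2).eq_or_lt with n2 | n2
  · exact caseC h3 h2 h n2.symm n0 n4 n5
  rcases (t0 3).eq_or_lt with n3 | n3
  · exact caseC h3 h2 (hta F k p q mu ep lam v M ξ h) n3.symm n0 n5 n4
  · refine h0 F k p q mu ep lam v M ξ h fun e ↦ ?_
    fin_cases e
    exacts [n0, n1, n2, n3, n4, n5]

end Pool.Agent.Helper45.FN.CCL
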